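import Pool.Agent.Helper88.SE.Goals

/-! # Project SE, packet DV: the product of the differences has few prime factors `> z` -/

set_option autoImplicit false

open Finset Filter Topology

open scoped Classical

namespace Pool.Agent.Helper36.SE

open Pool.Agent.Helper88.SE Pool.Agent.Helper88.TU

/-- A positive number less than `(z+1)^K` has at most `K` prime factors `> z`. -/
theorem few (z K n : ℕ) (hn : n ≠ 0) (h : n < (z + 1) ^ K) (hz : 1 ≤ z) :
    (n.primeFactors.filter (fun p => z < p)).card ≤ K := by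
  set s := n.primeFactors.filter (fun p => z < p) with hs
  have h1 : (z + 1) ^ s.card ≤ ∏ p ∈ s, p :=
    Finset.pow_card_le_prod s _ _ fun p hp => (Finset.mem_filter.1 hp).2
  have h2 : ∏ p ∈ s, p ∣ n := by
    refine (Finset.prod_dvd_prod_of_subset s n.primeFactors _ (Finset.filter_subset _ _)).trans ?_
    exact Nat.prod_primeFactors_dvd n
  have h3 : (z + 1) ^ s.card < (z + 1) ^ K :=
    (h1.trans (Nat.le_of_dvd (Nat.pos_of_ne_zero hn) h2)).trans_lt h
  exact ((Nat.pow_lt_pow_iff_right (by omega)).1 h3).le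

/-- **DV** -/
theorem dv : Pool.Agent.Helper88.SE.StmtDV := by
  obtain ⟨E1, hE1⟩ := size
  have ev : ∀ᶠ w : ℝ in atTop, 25600 * w ^ 20 ≤ Real.exp w := by
    have h1 : ∀ᶠ w : ℝ in atTop, w ^ 20 * Real.exp (-w) < 1 / 25600 :=
      (Real.tendsto_pow_mul_exp_neg_atTop_nhds_zero 20).eventually (gt_mem_nhds (by positivity))
    filter_upwards [h1] with w hw
    rw [Real.exp_neg, ← div_eq_mul_inv, div_lt_iff₀ (Real.exp_pos _)] at hw
    linarith
  obtain ⟨w0, hw0⟩ := eventually_atTop.1 ev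
  refine ⟨max E1 ⌈w0⌉₊, fun E z x y hE hS P hP hPy => ?_⟩
  obtain ⟨a1, a2, a3, a4, a5, a6, a7, a8, a9, a10, a11, a12, a13, a14⟩ :=
    hE1 E z x y ((le_max_left _ _).trans hE) hS.1
  have hEw : w0 ≤ E := (Nat.le_ceil w0).trans (by exact_mod_cast (le_max_right _ _).trans hE)
  have hwz := hw0 (Real.log z) (hEw.trans a1)
  have hz0 : (0 : ℝ) < z := by
    have : (64 : ℝ) ≤ z := by exact_mod_cast a10
    linarith
  rw [Real.exp_log hz0] at hwz
  have hlx0 : 0 ≤ Real.log x := by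
    have : (0 : ℝ) ≤ (E : ℝ) ^ 2 := by positivity
    linarith
  have hy1 : (y : ℝ) ≤ 4 * Real.log z ^ 4 := by
    have h1 : (y : ℝ) ≤ Real.log x ^ 2 := hS.1.2.2.2.2
    have h2 : Real.log x ^ 2 ≤ (2 * Real.log z ^ 2) ^ 2 := pow_le_pow_left₀ hlx0 a4 2
    nlinarith
  have hy5 : 25 * y ^ 5 ≤ z := by
    have h1 : (y : ℝ) ^ 5 ≤ (4 * Real.log z ^ 4) ^ 5 :=
      pow_le_pow_left₀ (Nat.cast_nonneg _) hy1 5
    have h2 : ((25 * y ^ 5 : ℕ) : ℝ) ≤ z := by
      push_cast
      calc 25 * (y : ℝ) ^ 5 ≤ 25 * (4 * Real.log z ^ 4) ^ 5 := by linarith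
        _ = 25600 * Real.log z ^ 20 := by ring
        _ ≤ z := hwz
    exact_mod_cast h2
  set Q := (P ×ˢ P).filter (fun q => q.1 < q.2) with hQ
  refine ⟨∏ q ∈ Q, (q.2 - q.1), ?_, ?_, ?_⟩
  · rw [Finset.prod_ne_zero_iff]
    intro q hq
    have := (Finset.mem_filter.1 hq).2
    omega
  · intro i hi j hj hij
    exact Finset.dvd_prod_of_mem (fun q : ℕ × ℕ => q.2 - q.1)
      (a := (i, j)) (Finset.mem_filter.2 ⟨Finset.mem_product.2 ⟨hi, hj⟩, hij⟩)
  · have hsub : (∏ q ∈ Q, (q.2 - q.1)).primeFactors.filter (fun p => z < p) ⊆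
        Q.biUnion (fun q => (q.2 - q.1).primeFactors.filter (fun p => z < p)) := by
      intro p hp
      obtain ⟨h1, h2⟩ := Finset.mem_filter.1 hp
      have hpp : p.Prime := Nat.prime_of_mem_primeFactors h1
      have h3 : p ∣ ∏ q ∈ Q, (q.2 - q.1) := Nat.dvd_of_mem_primeFactors h1
      obtain ⟨q, hq, h4⟩ := (Prime.dvd_finsetProd_iff hpp.prime _).1 h3
      refine Finset.mem_biUnion.2 ⟨q, hq, Finset.mem_filter.2 ⟨?_, h2⟩⟩
      refine Nat.mem_primeFactors.2 ⟨hpp, h4, ?_⟩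
      have := (Finset.mem_filter.1 hq).2
      omega
    have hcard : ((∏ q ∈ Q, (q.2 - q.1)).primeFactors.filter (fun p => z < p)).card ≤
        y ^ 2 * (5 * E) := by
      refine (Finset.card_le_card hsub).trans ?_
      refine (Finset.card_biUnion_le_card_mul Q _ (5 * E) fun q hq => ?_).trans ?_
      · obtain ⟨h1, h2⟩ := Finset.mem_filter.1 hq
        obtain ⟨h3, h4⟩ := Finset.mem_product.1 h1
        have h5 := Finset.mem_Icc.1 (hP h4)
        refine few z (5 * E) _ (by omega) ?_ (by omega)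
        have h6 : q.2 - q.1 ≤ x ^ 5 := by omega
        have h7 : x ^ 5 < ((z + 1) ^ E) ^ 5 :=
          Nat.pow_lt_pow_left hS.1.2.2.1 (by norm_num)
        calc q.2 - q.1 ≤ x ^ 5 := h6
          _ < ((z + 1) ^ E) ^ 5 := h7
          _ = (z + 1) ^ (5 * E) := by rw [← pow_mul, mul_comm]
      · refine Nat.mul_le_mul ?_ le_rfl
        calc Q.card ≤ (P ×ˢ P).card := Finset.card_filter_le _ _
          _ = P.card * P.card := Finset.card_product _ _
          _ ≤ y * y := Nat.mul_le_mul hPy hPy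
          _ = y ^ 2 := by ring
    calc ((∏ q ∈ Q, (q.2 - q.1)).primeFactors.filter (fun p => z < p)).card ^ 2
        ≤ (y ^ 2 * (5 * E)) ^ 2 := Nat.pow_le_pow_left hcard 2
      _ = 25 * (y ^ 4 * E ^ 2) := by ring
      _ ≤ 25 * (y ^ 4 * y) := Nat.mul_le_mul le_rfl (Nat.mul_le_mul le_rfl a6)
      _ = 25 * y ^ 5 := by ring
      _ ≤ z := hy5

end Pool.Agent.Helper36.SE
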